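import Mathlib

/-!
One step of the perturbed rotation, in the linearizing coordinate.
-/

set_option autoImplicit false

namespace Pool.Agent.FS.LinSmall

open Metric Set Complex Filter Topology

/-- the model polynomial -/
noncomputable def pp (v : ℂ) : ℂ := 1 - 3 * v + 2 * v ^ 2

theorem pow_lin (y : ℂ) (q : ℕ) (h : q * ‖y‖ ≤ 1) :
    ‖(1 + y) ^ q - 1 - q * y‖ ≤ (q * ‖y‖) ^ 2 := by
  induction q with
  | zero => simp
  | succ q ih =>
    have h0 := norm_nonneg y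
    have hq : (0 : ℝ) ≤ q := Nat.cast_nonneg q
    push_cast at h ⊢
    have h1 := ih (by nlinarith)
    rw [show (1 + y) ^ (q + 1) - 1 - (q + 1) * y =
      (1 + y) * ((1 + y) ^ q - 1 - q * y) + q * y ^ 2 by ring]
    refine (norm_add_le _ _).trans ?_
    rw [norm_mul, norm_mul, norm_pow, Complex.norm_natCast]
    have h2 : ‖1 + y‖ ≤ 1 + ‖y‖ := by simpa using norm_add_le 1 y
    have h3 := mul_le_mul h2 h1 (norm_nonneg _) (by linarith)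
    have h4 : q * ‖y‖ * (q * ‖y‖ ^ 2) ≤ 1 * (q * ‖y‖ ^ 2) :=
      mul_le_mul_of_nonneg_right (by nlinarith) (by positivity)
    nlinarith [sq_nonneg ‖y‖]

theorem exists_eta (M : ℕ) (hM : 1 ≤ M) : ∃ η : ℝ, 0 < η ∧ η ≤ 1 / 4 ∧
    (∀ u : ℂ, ‖u - 1‖ ≤ η → ‖u * pp (u ^ M) - M * (u - 1)‖ ≤ ‖u - 1‖ / 4 ∧
      ‖pp (u ^ M)‖ ≤ 1 / 10 ∧ ‖u ^ M * (-3 + 4 * u ^ M) - 1‖ ≤ 1 / 10) ∧
    ∀ ξ : ℂ, ‖ξ - 1‖ ≤ 4 * η → ξ ^ M = 1 → ξ = 1 := by
  have h1 : HasDerivAt (fun u : ℂ => u * pp (u ^ M)) M 1 := by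
    have h2 := hasDerivAt_pow M (1 : ℂ)
    have h3 := (hasDerivAt_id' (1 : ℂ)).fun_mul
      (((h2.const_mul 3).const_sub 1).fun_add ((h2.fun_pow 2).const_mul 2))
    refine (h3.congr_deriv ?_)
    simp
    ring
  have e1 := h1.isLittleO.bound (by norm_num : (0 : ℝ) < 1 / 4)
  have e2 : ∀ᶠ u in 𝓝 (1 : ℂ), ‖pp (u ^ M)‖ ≤ 1 / 10 :=
    (by unfold pp; fun_prop : ContinuousAt (fun u : ℂ => ‖pp (u ^ M)‖) 1).eventually
      (eventually_le_nhds (by simp [pp]; norm_num))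
  have e3 : ∀ᶠ u in 𝓝 (1 : ℂ), ‖u ^ M * (-3 + 4 * u ^ M) - 1‖ ≤ 1 / 10 :=
    (by fun_prop : ContinuousAt (fun u : ℂ => ‖u ^ M * (-3 + 4 * u ^ M) - 1‖) 1).eventually
      (eventually_le_nhds (by simp; norm_num))
  obtain ⟨r, hr, h⟩ := Metric.mem_nhds_iff.1 (e1.and (e2.and e3))
  have hη : min (1 / 4) (r / 8) ≤ r / 8 := min_le_right _ _
  refine ⟨min (1 / 4) (r / 8), by positivity, min_le_left _ _, fun u hu => ?_, fun ξ hξ e => ?_⟩
  · obtain ⟨a, b⟩ := h (show u ∈ ball 1 r by rw [mem_ball, dist_eq_norm]; linarith)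
    refine ⟨?_, b⟩
    have : pp (1 ^ M) = 0 := by simp [pp]; norm_num
    simp only [this, mul_zero, sub_zero, smul_eq_mul] at a
    rw [mul_comm (M : ℂ)]
    linarith
  · have a := (h (show ξ ∈ ball 1 r by rw [mem_ball, dist_eq_norm]; linarith)).1
    have : pp 1 = 0 := by simp [pp]; norm_num
    simp only [e, one_pow, this, mul_zero, sub_zero, smul_eq_mul, zero_sub, norm_neg, norm_mul,
      Complex.norm_natCast] at a
    have hM' : (1 : ℝ) ≤ M := by exact_mod_cast hM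
    exact sub_eq_zero.1 (norm_le_zero_iff.1 (by nlinarith [norm_nonneg (ξ - 1)]))

theorem inner_step {w e : ℂ} {ε : ℝ} {N : ℕ} (hN : 1 ≤ N) (hε : 0 < ε) (hε1 : ε ≤ 1)
    (hw : ‖w‖ ≤ 1 / 8) (he : ‖e‖ ≤ 1 / 16) : ‖w * (1 - ε * pp (w ^ N)) + ε * e‖ ≤ 1 / 8 := by
  have h1 : ‖w ^ N‖ ≤ 1 / 8 := by
    rw [norm_pow]
    exact (pow_le_of_le_one (norm_nonneg _) (by linarith) (by omega)).trans hw
  generalize w ^ N = v at h1
  have h2 : ‖3 * v - 2 * v ^ 2‖ ≤ 1 / 2 := by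
    refine (norm_sub_le _ _).trans ?_
    rw [norm_mul, norm_mul, norm_pow]
    simp only [Complex.norm_ofNat]
    nlinarith [norm_nonneg v]
  have h3 : ‖1 - ε * pp v‖ ≤ 1 - ε / 2 := by
    rw [show 1 - ε * pp v = ((1 - ε : ℝ) : ℂ) + ε * (3 * v - 2 * v ^ 2) by
      unfold pp; push_cast; ring]
    refine (norm_add_le _ _).trans ?_
    rw [norm_mul, Complex.norm_real, Complex.norm_real, Real.norm_of_nonneg (by linarith),
      Real.norm_of_nonneg hε.le]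
    nlinarith
  refine (norm_add_le _ _).trans ?_
  rw [norm_mul, norm_mul, Complex.norm_real, Real.norm_of_nonneg hε.le]
  have h4 := mul_le_mul hw h3 (norm_nonneg _) (by norm_num)
  nlinarith

theorem size {w ζ : ℂ} {q : ℕ} (hq : 1 ≤ q) (hζ : ‖ζ‖ = 1) (h : ‖w ^ q * ζ - 1‖ ≤ 1 / 4) :
    1 / 2 ≤ ‖w‖ ∧ ‖w‖ ≤ 2 := by
  have h1 := abs_le.1 ((abs_norm_sub_norm_le (w ^ q * ζ) 1).trans h)
  rw [norm_mul, hζ, mul_one, norm_pow, norm_one] at h1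
  constructor
  · by_contra hc
    have := pow_le_of_le_one (norm_nonneg w) (by linarith) (by omega : q ≠ 0)
    linarith
  · by_contra hc
    have := le_self_pow₀ (by linarith : 1 ≤ ‖w‖) (by omega : q ≠ 0)
    linarith

theorem outer_step {w e ζ lam : ℂ} {ε η₁ t : ℝ} {q M : ℕ} (hq : 1 ≤ q) (hM : 1 ≤ M)
    (hζ : ‖ζ‖ = 1) (hζM : ζ ^ M = 1) (hε : 0 < ε) (ht : t ≤ 1 / 4) (hη : 16 * η₁ ≤ t)
    (hτ : q * ε ≤ η₁) (hτM : q * ε * M ≤ 1) (he : ‖e‖ ≤ η₁)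
    (hl : ‖lam ^ q - 1‖ ≤ q * ε * η₁) (hu : ‖w ^ q * ζ - 1‖ ≤ t)
    (hV : ‖w ^ q * ζ * pp ((w ^ q * ζ) ^ M) - M * (w ^ q * ζ - 1)‖ ≤ ‖w ^ q * ζ - 1‖ / 4)
    (hp : ‖pp ((w ^ q * ζ) ^ M)‖ ≤ 1 / 10) :
    ‖(lam * (w * (1 - ε * pp (w ^ (q * M))) + ε * e)) ^ q * ζ - 1‖ ≤ t := by
  obtain ⟨s1, -⟩ := size hq hζ (hu.trans ht)
  have hw : w ≠ 0 := norm_pos_iff.1 (by linarith)
  have e0 : w ^ (q * M) = (w ^ q * ζ) ^ M := by rw [mul_pow, hζM, mul_one, pow_mul]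
  rw [e0]
  set P := pp ((w ^ q * ζ) ^ M)
  have hM' : (1 : ℝ) ≤ M := by exact_mod_cast hM
  have hq' : (1 : ℝ) ≤ q := by exact_mod_cast hq
  have hτ0 : 0 < q * ε := by positivity
  have h1 : ‖e / w‖ ≤ 2 * η₁ := by
    rw [norm_div, div_le_iff₀ (by linarith)]
    nlinarith
  set y : ℂ := ε * (e / w - P) with hy
  have h2 : q * ‖y‖ ≤ q * ε := by
    rw [hy, norm_mul, Complex.norm_real, Real.norm_of_nonneg hε.le, ← mul_assoc]
    have := norm_sub_le (e / w) P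
    exact mul_le_of_le_one_right hτ0.le (by linarith)
  have h3 := pow_lin y q (by linarith)
  have h3' : (q * ‖y‖) ^ 2 ≤ q * ε * η₁ := by
    rw [sq]
    exact mul_le_mul h2 (h2.trans hτ) (by positivity) hτ0.le
  have e1 : lam * (w * (1 - ε * P) + ε * e) = lam * w * (1 + y) := by
    rw [hy]; field_simp; ring
  rw [e1, mul_pow, mul_pow]
  generalize hu' : w ^ q * ζ = u at *
  set a := (1 + y) ^ q - 1 - q * y with ha
  have hun : ‖u‖ ≤ 2 := by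
    have := norm_add_le (u - 1) 1
    rw [sub_add_cancel, norm_one] at this
    linarith
  have h4 : ‖(1 + y) ^ q‖ ≤ 3 := by
    rw [show (1 + y) ^ q = a + 1 + q * y by rw [ha]; ring]
    refine norm_add₃_le.trans ?_
    rw [norm_mul, Complex.norm_natCast, norm_one]
    nlinarith
  have e2 : lam ^ q * w ^ q * (1 + y) ^ q * ζ - 1 = (lam ^ q - 1) * (u * (1 + y) ^ q) +
      (((1 - q * ε * M : ℝ) : ℂ) * (u - 1) + -(((q * ε : ℝ) : ℂ) * (u * P - M * (u - 1)))) +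
      (((q * ε : ℝ) : ℂ) * (u * (e / w)) + u * a) := by
    rw [ha, ← hu', hy]; push_cast; ring
  rw [e2]
  have b1 : ‖(lam ^ q - 1) * (u * (1 + y) ^ q)‖ ≤ q * ε * η₁ * (2 * 3) := by
    rw [norm_mul, norm_mul]
    exact mul_le_mul hl (mul_le_mul hun h4 (norm_nonneg _) (by norm_num)) (by positivity)
      ((norm_nonneg _).trans hl)
  have b2 : ‖((1 - q * ε * M : ℝ) : ℂ) * (u - 1)‖ ≤ (1 - q * ε) * t := by
    rw [norm_mul, Complex.norm_real, Real.norm_of_nonneg (by linarith)]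
    exact mul_le_mul (by nlinarith) hu (norm_nonneg _) (by nlinarith)
  have b3 : ‖-(((q * ε : ℝ) : ℂ) * (u * P - M * (u - 1)))‖ ≤ q * ε * (t / 4) := by
    rw [norm_neg, norm_mul, Complex.norm_real, Real.norm_of_nonneg hτ0.le]
    exact mul_le_mul_of_nonneg_left (by linarith) hτ0.le
  have b4 : ‖((q * ε : ℝ) : ℂ) * (u * (e / w))‖ ≤ q * ε * (2 * (2 * η₁)) := by
    rw [norm_mul, Complex.norm_real, Real.norm_of_nonneg hτ0.le, norm_mul]
    exact mul_le_mul_of_nonneg_left (mul_le_mul hun h1 (norm_nonneg _) (by norm_num)) hτ0.le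
  have b5 : ‖u * a‖ ≤ 2 * (q * ε * η₁) := by
    rw [norm_mul]
    exact mul_le_mul hun (h3.trans h3') (norm_nonneg _) (by norm_num)
  refine norm_add₃_le.trans ?_
  have b6 := mul_le_mul_of_nonneg_left hη hτ0.le
  linarith [norm_add_le (((1 - q * ε * M : ℝ) : ℂ) * (u - 1))
    (-(((q * ε : ℝ) : ℂ) * (u * P - M * (u - 1)))),
    norm_add_le (((q * ε : ℝ) : ℂ) * (u * (e / w))) (u * a)]

theorem deriv_step {v : ℂ} {ε : ℝ} {N : ℕ} (hN : 1 ≤ N) (hε : 0 < ε) (hεN : ε * N ≤ 1)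
    (hp : ‖pp v‖ ≤ 1 / 10) (hd : ‖v * (-3 + 4 * v) - 1‖ ≤ 1 / 10) :
    ‖1 - ε * pp v - ε * N * (v * (-3 + 4 * v))‖ ≤ 1 - 4 / 5 * ε := by
  have hN' : (1 : ℝ) ≤ N := by exact_mod_cast hN
  rw [show 1 - ε * pp v - ε * N * (v * (-3 + 4 * v)) = ((1 - ε * N : ℝ) : ℂ) + -(ε * pp v) +
    -(((ε * N : ℝ) : ℂ) * (v * (-3 + 4 * v) - 1)) by push_cast; ring]
  refine norm_add₃_le.trans ?_
  rw [norm_neg, norm_neg, norm_mul, norm_mul, Complex.norm_real, Complex.norm_real,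
    Complex.norm_real, Real.norm_of_nonneg (by linarith), Real.norm_of_nonneg hε.le,
    Real.norm_of_nonneg (by positivity)]
  have h1 := mul_le_mul_of_nonneg_left hp hε.le
  have h2 := mul_le_mul_of_nonneg_left hd (by positivity : 0 ≤ ε * N)
  nlinarith

end Pool.Agent.FS.LinSmall
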