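import Pool.Agent.FS.LinSmall.Pert
import Pool.Agent.Lib.MP_27cd7e_an.FtMain

/-!
An exponential lower bound for the small divisors at a linearizable fixed point of a map of finite
type.
-/

set_option autoImplicit false

namespace Pool.Agent.FS.LinSmall

open Pool.Agent.Lib.MP_27cd7e_an Metric Set Complex Filter Topology

theorem ev_small (c : ℝ) {d : ℝ} (hd : 0 < d) : ∀ᶠ θ in 𝓝[>] (0 : ℝ), θ * c ≤ d := by
  have h1 : Tendsto (fun θ : ℝ => θ * c) (𝓝 0) (𝓝 0) := by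
    simpa using (continuous_mul_const c).tendsto 0
  exact (h1.eventually (eventually_le_nhds hd)).filter_mono nhdsWithin_le_nhds

theorem lower {W S : Set ℂ} {f φ : ℂ → ℂ} {lam : ℂ} (hf : FT W f S) (h0 : (0 : ℂ) ∈ W)
    (hf0 : f 0 = 0) (hlam : ‖lam‖ = 1) (hd : deriv f 0 = lam) (h1 : AnalyticAt ℂ φ 0)
    (h2 : φ 0 = 0) (h3 : deriv φ 0 ≠ 0) (h4 : ∀ᶠ w in 𝓝 0, φ (f w) = lam * φ w) :
    ∃ C : ℝ, ∀ q : ℕ, 1 ≤ q → Real.exp (-(C * q)) ≤ ‖lam ^ q - 1‖ := by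
  obtain ⟨ρ₁, hρ₁, e, htrap⟩ := hf.trap h0 hf0 hlam hd
  have hfd : HasDerivAt f lam 0 :=
    hd ▸ (hf.diff.differentiableAt (hf.opn.mem_nhds h0)).hasDerivAt
  have h5 : ∀ᶠ w in 𝓝 (0 : ℂ), ‖deriv φ w / deriv φ 0 - 1‖ ≤ 1 / 10 :=
    ((h1.deriv.continuousAt.div_const _).sub_const 1).norm.eventually
      (eventually_le_nhds (by simp [h3]))
  obtain ⟨ρ', hρ', hloc⟩ := Metric.mem_nhds_iff.1
    ((hfd.isLittleO.bound one_pos).and ((show ∀ᶠ z in 𝓝 (0 : ℂ), z ∈ W from hf.opn.mem_nhds h0).and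
      (h4.and (h5.and h1.eventually_analyticAt))))
  obtain ⟨ρ, hρ, r1, r2, r3⟩ : ∃ ρ : ℝ, 0 < ρ ∧ ρ ≤ 1 ∧ 100 * ρ ≤ ρ' ∧ 100 * ρ ≤ ρ₁ :=
    ⟨min 1 (min (ρ' / 100) (ρ₁ / 100)), by positivity, min_le_left _ _,
      by linarith [min_le_right 1 (min (ρ' / 100) (ρ₁ / 100)), min_le_left (ρ' / 100) (ρ₁ / 100)],
      by linarith [min_le_right 1 (min (ρ' / 100) (ρ₁ / 100)), min_le_right (ρ' / 100) (ρ₁ / 100)]⟩
  have hs : ball (0 : ℂ) (100 * ρ) ⊆ ball 0 ρ' := ball_subset_ball r2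
  have hρc : (ρ : ℂ) ≠ 0 := by exact_mod_cast hρ.ne'
  have hcrd : Crd (fun z => φ z / (ρ * deriv φ 0)) ρ := by
    refine ⟨hρ, fun z hz => ((hloc (hs hz)).2.2.2.2.differentiableAt.div_const
      _).differentiableWithinAt, by simp [h2], fun z hz => ?_⟩
    rw [deriv_div_const, show (ρ : ℂ) * (deriv φ z / (ρ * deriv φ 0)) = deriv φ z / deriv φ 0 by
      field_simp]
    exact (hloc (hs hz)).2.2.2.1
  have hloc' : ∀ z ∈ ball (0 : ℂ) (100 * ρ), z ∈ W ∧ ‖f z‖ ≤ 2 * ‖z‖ ∧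
      φ (f z) / (ρ * deriv φ 0) = lam * (φ z / (ρ * deriv φ 0)) := by
    intro z hz
    obtain ⟨k1, k2, k3, -⟩ := hloc (hs hz)
    refine ⟨k2, ?_, by rw [k3, mul_div_assoc]⟩
    simp only [hf0, sub_zero, smul_eq_mul, one_mul] at k1
    have k4 := norm_le_norm_sub_add (f z) (z * lam)
    rw [norm_mul, hlam] at k4
    linarith
  obtain ⟨a, δ, hδ, -, -, ht⟩ := htrap (10 / ρ) (by rw [le_div_iff₀ hρ]; linarith)
  have ht' : ∀ z ∈ ball a (4 * δ), 100 * ρ ≤ ‖z‖ ∧ ‖f z‖ < ρ / 10 := by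
    intro z hz
    refine ⟨r3.trans (ht z hz).1, (ht z hz).2.trans_le ?_⟩
    rw [one_div, ← inv_pow, inv_div]
    exact pow_le_of_le_one (by positivity) (by linarith) (by norm_num)
  obtain ⟨η, hη0, hη, hP, hsep⟩ := exists_eta (S.ncard + 1) (by omega)
  set M := S.ncard + 1 with hM
  obtain ⟨Λ, hΛ, hΛ'⟩ : ∃ Λ : ℝ, 1 ≤ Λ ∧ ‖a‖ * (1 + ‖a‖ / δ) ≤ Λ * (28 * ρ) :=
    ⟨max 1 (‖a‖ * (1 + ‖a‖ / δ) / (28 * ρ)), le_max_left _ _,
      (div_le_iff₀ (by positivity)).1 (le_max_right _ _)⟩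
  obtain ⟨P, hP1, hP2⟩ : ∃ P : ℝ, 1 ≤ P ∧ ∀ q : ℕ, 1 ≤ q →
      1000 * ((110 : ℝ) ^ (q * M)) ^ 2 ≤ P ^ q := by
    have k1 : (1 : ℝ) ≤ (110 ^ M) ^ 2 := one_le_pow₀ (one_le_pow₀ (by norm_num))
    refine ⟨1000 * (110 ^ M) ^ 2, by linarith, fun q hq => ?_⟩
    rw [mul_pow, show ((110 : ℝ) ^ (q * M)) ^ 2 = ((110 ^ M) ^ 2) ^ q by
      rw [← pow_mul, ← pow_mul, ← pow_mul, show q * M * 2 = M * (2 * q) by ring]]
    exact mul_le_mul_of_nonneg_right (le_self_pow₀ (by norm_num) (by omega)) (by positivity)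
  obtain ⟨n₀, hn₀⟩ := pow_unbounded_of_one_lt (P / (ρ * (η / 32) / 8)) (by norm_num : (1 : ℝ) < 2)
  have hn₁ : P / 2 ^ n₀ ≤ ρ * (η / 32) / 8 := by
    rw [div_lt_iff₀ (by positivity)] at hn₀
    rw [div_le_iff₀ (by positivity)]
    linarith
  have hρη : ρ * (η / 32) ≤ 1 := by nlinarith
  obtain ⟨θ, ⟨⟨t1, t2⟩, ⟨t3, t4⟩, t5, t6⟩, t0⟩ :=
    ((((ev_small (P * (2 * Λ) ^ n₀) (d := δ / 4) (by positivity)).and
      (ev_small (P * (2 * Λ) ^ n₀) one_pos)).and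
      (((ev_small (P ^ 2) (d := ρ ^ 2 * (η / 32) / 4) (by positivity)).and
        (ev_small (P ^ 2) one_pos)).and
      ((ev_small 2 (d := η / 32) (by positivity)).and (ev_small (2 * M) one_pos)))).and
      (self_mem_nhdsWithin (a := (0 : ℝ)) (s := Ioi 0))).exists
  replace t0 : 0 < θ := t0
  refine ⟨-Real.log (θ * (η / 32)), fun q hq => ?_⟩
  have hq0 : q ≠ 0 := by omega
  have hq' : (1 : ℝ) ≤ q := by exact_mod_cast hq
  have k1 : (q : ℝ) * θ ^ q ≤ θ * 2 := by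
    have k2 : (q : ℝ) ≤ 2 ^ q := by exact_mod_cast (Nat.lt_two_pow_self (n := q)).le
    calc _ ≤ 2 ^ q * θ ^ q := mul_le_mul_of_nonneg_right k2 (by positivity)
      _ = (θ * 2) ^ q := by ring
      _ ≤ _ := pow_le_of_le_one (by positivity) (by linarith) hq0
  by_contra hc
  rw [neg_mul, neg_neg, mul_comm, Real.exp_nat_mul, Real.exp_log (by positivity), not_le,
    mul_pow] at hc
  have k3 : (η / 32) ^ q ≤ η / 32 := pow_le_of_le_one (by positivity) (by linarith) hq0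
  have k4 : 0 < θ ^ q := by positivity
  have k5 : 1 ≤ P ^ q := one_le_pow₀ hP1
  have := one_q (B := P ^ q) (n := n₀ * q) (ε := θ ^ q) (M := M) hf hcrd r1 hlam hloc' hδ ht' hq
    (by omega) hη0 hη rfl hP hsep hΛ hΛ' (hP2 q hq)
    (by
      rw [mul_div_assoc, pow_mul, ← div_pow]
      linarith [pow_le_of_le_one (by positivity : 0 ≤ P / 2 ^ n₀) (by linarith) hq0])
    k4
    (by
      rw [pow_mul, ← mul_pow, ← mul_pow]
      exact (pow_le_of_le_one (by positivity) t2 hq0).trans t1)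
    (by
      have k6 := (pow_le_of_le_one (by positivity) t4 hq0).trans t3
      rw [mul_pow, ← pow_mul, mul_comm 2 q, pow_mul] at k6
      have k7 : (P ^ q + 1) ^ 2 ≤ 4 * (P ^ q) ^ 2 := by nlinarith
      have k8 := mul_le_mul_of_nonneg_left k7 k4.le
      linarith)
    (k1.trans t5)
    (by nlinarith [mul_le_mul_of_nonneg_right k1 (Nat.cast_nonneg (α := ℝ) M)])
    (by
      have k6 := mul_le_mul_of_nonneg_left k3 k4.le
      have k7 : 0 ≤ θ ^ q * (η / 32) := by positivity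
      nlinarith)
  omega

theorem small_cycles {V S : Set ℂ} {g : ℂ → ℂ} (hg : FT V g S) {z₀ : ℂ} (h0 : z₀ ∈ V)
    (hfix : g z₀ = z₀) {α : ℝ} (hα : Irrational α)
    (hmul : deriv g z₀ = exp (2 * Real.pi * I * α))
    (hL : ∀ C : ℝ, ∃ q : ℕ, 1 ≤ q ∧
      ‖exp (2 * Real.pi * I * α) ^ q - 1‖ < Real.exp (-(C * q)))
    {U : Set ℂ} (hU : U ∈ 𝓝 z₀) :
    {c : Set ℂ | c ⊆ U ∧ ∃ x : ℂ, ∃ m : ℕ, 1 ≤ m ∧ g^[m] x = x ∧
      c = {y | ∃ k < m, g^[k] x = y}}.Infinite := by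
  refine hg.small_cycles h0 hfix hα hmul ?_ hU
  rintro ⟨φ, a1, a2, a3, a4⟩
  have hlam : ‖exp (2 * Real.pi * I * α)‖ = 1 := by
    rw [show 2 * (Real.pi : ℂ) * I * α = ((2 * Real.pi * α : ℝ) : ℂ) * I by push_cast; ring]
    exact Complex.norm_exp_ofReal_mul_I _
  have hsh : Tendsto (fun w => w + z₀) (𝓝 0) (𝓝 z₀) := by
    simpa using ((continuous_add_const z₀).tendsto 0)
  obtain ⟨C, hC⟩ := lower (φ := fun w => φ (w + z₀)) (hg.shift z₀) (by simpa using h0)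
    (by simp [hfix]) hlam (by rw [deriv_sub_const, deriv_comp_add_const, zero_add, hmul])
    (AnalyticAt.comp_of_eq (f := fun w => w + z₀) a1 (by fun_prop) (zero_add _)) (by simp [a2])
    (by rw [deriv_comp_add_const, zero_add]; exact a3)
    (by
      filter_upwards [hsh.eventually a4] with w hw
      rw [sub_add_cancel]
      exact hw)
  obtain ⟨q, hq, hlt⟩ := hL C
  exact absurd (hC q hq) (not_le.2 hlt)

end Pool.Agent.FS.LinSmall
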