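import Pool.Agent.Lib.MP_27cd7e_an.FtBasic

/-!
Approximation by a rational function with one pole, and the singular value lemma along an orbit.
-/

set_option autoImplicit false

namespace Pool.Agent.FS.LinSmall

open Pool.Agent.Lib.MP_27cd7e_an Metric Set Complex Filter Topology

theorem taylor {F : ℂ → ℂ} {R s B : ℝ} (hF : DifferentiableOn ℂ F (ball 0 R))
    (hB : ∀ w ∈ ball (0 : ℂ) R, ‖F w‖ ≤ B) (hs : 0 < s) (hsR : s < R) (n : ℕ) :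
    ∃ T : ℂ → ℂ, Differentiable ℂ T ∧ (∀ z : ℂ, ‖z‖ ≤ s / 2 → ‖F z - T z‖ ≤ 2 * B / 2 ^ n) ∧
      ∀ Λ : ℝ, 1 ≤ Λ → ∀ z : ℂ, ‖z‖ ≤ Λ * s → ‖T z‖ ≤ B * (2 * Λ) ^ n := by
  have hB0 : 0 ≤ B := (norm_nonneg _).trans (hB 0 (mem_ball_self (by linarith)))
  set c : ℕ → ℂ := fun n => ((n.factorial : ℂ))⁻¹ * iteratedDeriv n F 0 with hc
  have hc1 : ∀ n, ‖c n‖ * s ^ n ≤ B := coeff_bound hF hB hs hsR
  have hterm : ∀ (Λ : ℝ) (z : ℂ), 0 ≤ Λ → ‖z‖ ≤ Λ * s → ∀ i, ‖c i * z ^ i‖ ≤ B * Λ ^ i := by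
    intro Λ z hΛ hz i
    rw [norm_mul, norm_pow]
    calc _ ≤ ‖c i‖ * (Λ * s) ^ i := by gcongr
      _ = ‖c i‖ * s ^ i * Λ ^ i := by ring
      _ ≤ _ := mul_le_mul_of_nonneg_right (hc1 i) (by positivity)
  refine ⟨fun z => ∑ i ∈ Finset.range n, c i * z ^ i, by fun_prop, fun z hz => ?_,
    fun Λ hΛ z hz => ?_⟩
  · have hsum : HasSum (fun n => c n * z ^ n) (F z) := by
      have := Complex.hasSum_taylorSeries_on_ball hF
        (show z ∈ ball (0 : ℂ) R by rw [mem_ball_zero_iff]; linarith)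
      have e : (fun n => c n * z ^ n) =
          fun n : ℕ => (n.factorial : ℂ)⁻¹ • (z - 0) ^ n • iteratedDeriv n F 0 := by
        funext n
        simp only [hc, sub_zero, smul_eq_mul]
        ring
      rw [e]
      exact this
    have hgeo : HasSum (fun i : ℕ => B * (1 / 2) ^ n * (1 / 2 : ℝ) ^ i) (2 * B / 2 ^ n) := by
      have := hasSum_geometric_two.mul_left (B * (1 / 2) ^ n)
      rwa [show B * (1 / 2) ^ n * 2 = 2 * B / 2 ^ n by rw [one_div_pow]; ring] at this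
    refine ((hasSum_nat_add_iff' n).2 hsum).norm_le_of_bounded hgeo fun i =>
      (hterm (1 / 2) z (by norm_num) (by linarith) _).trans (le_of_eq ?_)
    rw [pow_add]; ring
  · refine (norm_sum_le _ _).trans ((Finset.sum_le_card_nsmul _ _ (B * Λ ^ n) fun i hi =>
      (hterm Λ z (by linarith) hz i).trans (mul_le_mul_of_nonneg_left
        (pow_le_pow_right₀ hΛ (Finset.mem_range.1 hi).le) hB0)).trans ?_)
    rw [Finset.card_range, nsmul_eq_mul, mul_pow]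
    have h1 : (n : ℝ) ≤ 2 ^ n := by exact_mod_cast (Nat.lt_two_pow_self).le
    have h2 := mul_le_mul_of_nonneg_right h1 (by positivity : 0 ≤ B * Λ ^ n)
    linarith

theorem approx {G : ℂ → ℂ} {a : ℂ} {ρ δ B Λ : ℝ} (hρ : 0 < ρ) (hδ : 0 < δ)
    (hG : DifferentiableOn ℂ G (ball 0 (100 * ρ))) (hB : ∀ w ∈ ball (0 : ℂ) (100 * ρ), ‖G w‖ ≤ B)
    (ha : 100 * ρ ≤ ‖a‖) (hΛ : 1 ≤ Λ) (hΛ' : ‖a‖ * (1 + ‖a‖ / δ) ≤ Λ * (28 * ρ)) (n : ℕ) :
    ∃ Q : ℂ → ℂ, (∀ z, z ≠ a → DifferentiableAt ℂ Q z) ∧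
      (∀ z ∈ ball (0 : ℂ) (12 * ρ), ‖G z - Q z‖ ≤ 2 * B / 2 ^ n) ∧
      ∀ z, δ ≤ ‖z - a‖ → ‖Q z‖ ≤ B * (2 * Λ) ^ n := by
  have ha0 : a ≠ 0 := norm_pos_iff.1 (by linarith)
  have hν : ∀ ζ ∈ ball (0 : ℂ) (40 * ρ), a + ζ ≠ 0 ∧ a * ζ / (a + ζ) ∈ ball (0 : ℂ) (100 * ρ) := by
    intro ζ hζ
    rw [mem_ball_zero_iff] at hζ ⊢
    have h1 := norm_sub_le (a + ζ) ζ
    rw [add_sub_cancel_right] at h1
    have h2 : 0 < ‖a + ζ‖ := by linarith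
    refine ⟨norm_pos_iff.1 h2, ?_⟩
    rw [norm_div, norm_mul, div_lt_iff₀ h2]
    nlinarith [norm_nonneg ζ]
  obtain ⟨T, h1, h2, h3⟩ := taylor (F := fun ζ => G (a * ζ / (a + ζ))) (R := 40 * ρ) (s := 28 * ρ)
    (hG.comp (DifferentiableOn.fun_div (by fun_prop) (by fun_prop) fun ζ hζ => (hν ζ hζ).1)
      fun ζ hζ => (hν ζ hζ).2) (fun ζ hζ => hB _ (hν ζ hζ).2) (by linarith) (by linarith) n
  refine ⟨fun z => T (a * z / (a - z)), fun z hz => (h1 _).comp z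
    (DifferentiableAt.fun_div (by fun_prop) (by fun_prop) (sub_ne_zero.2 hz.symm)),
    fun z hz => ?_, fun z hz => h3 Λ hΛ _ (le_trans ?_ hΛ')⟩
  · rw [mem_ball_zero_iff] at hz
    have h4 := norm_sub_norm_le a z
    have h5 : 0 < ‖a - z‖ := by linarith
    have h6 := norm_pos_iff.1 h5
    have h7 := h2 (a * z / (a - z)) (by
      rw [norm_div, norm_mul, div_le_iff₀ h5]
      nlinarith [norm_nonneg z])
    have h8 : a + a * z / (a - z) = a * a / (a - z) := by field_simp; ring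
    rwa [h8, show a * (a * z / (a - z)) / (a * a / (a - z)) = z by field_simp] at h7
  · have h5 : 0 < ‖a - z‖ := by rw [norm_sub_rev]; linarith
    rw [norm_div, norm_mul, mul_div_assoc]
    refine mul_le_mul_of_nonneg_left ?_ (norm_nonneg _)
    have h6 := norm_sub_le a (a - z)
    rw [sub_sub_cancel] at h6
    have h7 : ‖a‖ / ‖a - z‖ ≤ ‖a‖ / δ :=
      div_le_div_of_nonneg_left (norm_nonneg _) hδ (by rwa [norm_sub_rev])
    have h8 : ‖z‖ / ‖a - z‖ ≤ (‖a‖ + ‖a - z‖) / ‖a - z‖ := by gcongr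
    rw [add_div, div_self h5.ne'] at h8
    linarith

theorem fatou_orbit {g : ℂ → ℂ} {Ω A : Set ℂ} {x : ℂ} {s : ℝ} (hΩ : IsOpen Ω)
    (hg : DifferentiableOn ℂ g Ω) (hs : 0 < s) (hAΩ : A ⊆ Ω) (hxA : x ∈ A)
    (hfwd : ∀ z ∈ A, g z ∈ A) (hfar : ∀ z ∈ A, s ≤ ‖z‖) (hno : ∀ z ∈ A, deriv g z ≠ 0)
    (hlift : ∀ c : ℂ, ∀ r : ℝ, 0 < r → ∀ σ : ℂ → ℂ, ContinuousOn σ (ball c r) →
      (∀ b ∈ ball c r, σ b ∈ A) → ∀ y ∈ A, g y = σ c →
      ∃ F : ℂ → ℂ, ContinuousOn F (ball c r) ∧ F c = y ∧ ∀ b ∈ ball c r, F b ∈ A ∧ g (F b) = σ b)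
    {r : ℝ} (hr : 0 < r) (hball : ∀ n, ball (g^[n] x) r ⊆ A)
    (hsmall : ∀ B : ℝ, 0 < B → ∃ n, ‖deriv (g^[n]) x‖ * B < 1) : False := by
  have hga : ∀ z ∈ Ω, DifferentiableAt ℂ g z := fun z hz => hg.differentiableAt (hΩ.mem_nhds hz)
  have hder : ∀ n, ∀ z ∈ A, DifferentiableAt ℂ (g^[n]) z ∧ deriv (g^[n]) z ≠ 0 := by
    intro n
    induction n with
    | zero => exact fun z _ => ⟨differentiableAt_id, by simp⟩
    | succ n ih =>
      intro z hz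
      obtain ⟨h1, h2⟩ := ih _ (hfwd z hz)
      have h3 := h1.hasDerivAt.comp z (hga z (hAΩ hz)).hasDerivAt
      rw [Function.iterate_succ]
      exact ⟨h3.differentiableAt, by rw [h3.deriv]; exact mul_ne_zero h2 (hno z hz)⟩
  have hx0 : 0 < ‖x‖ := hs.trans_le (hfar x hxA)
  obtain ⟨n, hn2⟩ := hsmall (2 * s⁻¹ / r * ‖x‖ ^ 2) (by positivity)
  have hsub := hball n
  set ξ := g^[n] x with hξ
  have hξm : ξ ∈ ball ξ r := mem_ball_self hr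
  have lift : ∀ m, ∀ y ∈ A, g^[m] y = ξ → ∃ σ : ℂ → ℂ, ContinuousOn σ (ball ξ r) ∧
      σ ξ = y ∧ ∀ a ∈ ball ξ r, σ a ∈ A ∧ g^[m] (σ a) = a := by
    intro m
    induction m with
    | zero => exact fun y _ hy => ⟨id, continuousOn_id, hy.symm, fun a ha => ⟨hsub ha, rfl⟩⟩
    | succ m ih =>
      intro y hy hy'
      obtain ⟨σ, h1, h2, h3⟩ := ih (g y) (hfwd y hy) hy'
      obtain ⟨F, f1, f2, f3⟩ := hlift ξ _ hr σ h1 (fun b hb => (h3 b hb).1) y hy h2.symm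
      refine ⟨F, f1, f2, fun a ha => ⟨(f3 a ha).1, ?_⟩⟩
      rw [Function.iterate_succ_apply, (f3 a ha).2, (h3 a ha).2]
  obtain ⟨τ, hτc, h5, h3⟩ := lift n x hxA rfl
  have hτd : ∀ w ∈ ball ξ r, HasDerivAt τ (deriv (g^[n]) (τ w))⁻¹ w := by
    intro w hw
    refine HasDerivAt.of_local_left_inverse (hτc.continuousAt (isOpen_ball.mem_nhds hw))
      (hder n _ (h3 w hw).1).1.hasDerivAt (hder n _ (h3 w hw).1).2 ?_
    filter_upwards [isOpen_ball.mem_nhds hw] with y hy using (h3 y hy).2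
  have hτ0 : ∀ w ∈ ball ξ r, τ w ≠ 0 := fun w hw =>
    norm_pos_iff.1 (hs.trans_le (hfar _ (h3 w hw).1))
  have h4 := deriv_bound (F := fun w => (τ w)⁻¹) (c := ξ) (z := ξ) (R := r) (M := s⁻¹) (s := r)
    (fun w hw => ((hτd w hw).fun_inv (hτ0 w hw)).differentiableAt.differentiableWithinAt)
    (fun w hw => by rw [norm_inv]; exact inv_anti₀ hs (hfar _ (h3 w hw).1)) hr (by simp)
  rw [((hτd ξ hξm).fun_inv (hτ0 ξ hξm)).deriv, h5, norm_div, norm_neg, norm_inv, norm_pow,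
    div_le_iff₀ (by positivity)] at h4
  have h6 : 0 < ‖deriv (g^[n]) x‖ := norm_pos_iff.2 (hder n x hxA).2
  rw [inv_le_iff_one_le_mul₀' h6] at h4
  linarith

end Pool.Agent.FS.LinSmall
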