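import Pool.Agent.Lib.MP_27cd7e_an.FtCore
import Pool.Agent.FS.LinSmall.Tay

/-!
Counting attracting invariant regions of a perturbed map by singular values.
-/

set_option autoImplicit false

namespace Pool.Agent.FS.LinSmall

open Pool.Agent.Lib.MP_27cd7e_an Metric Set Complex Filter Topology

theorem count {W S D : Set ℂ} {f E g : ℂ → ℂ} {a : ℂ} {δ s : ℝ} {M : ℕ} {K : ℕ → Set ℂ}
    (hf : FT W f S) (hδ0 : 0 < δ) (hs0 : 0 < s) (h3 : ∀ z ∈ ball a (4 * δ), ‖f z‖ < s)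
    (hE : ∀ z, z ≠ a → DifferentiableAt ℂ E z) (hb : ∀ z, δ ≤ ‖z - a‖ → ‖E z‖ ≤ δ / 4)
    (hg : g = fun z => f (z + E z)) (hD : ball 0 s ⊆ D) (hDg : ∀ z ∈ D, g z ∈ D)
    (hKg : ∀ k < M, ∀ z ∈ K k, g z ∈ K k) (hKD : ∀ k < M, ∀ z ∈ K k, z ∉ D)
    (hKK : ∀ k < M, ∀ l < M, ∀ z ∈ K k, z ∈ K l → k = l)
    (hKW : ∀ k < M, ∀ z ∈ K k, 4 * δ ≤ ‖z - a‖ ∧ z + E z ∈ W)
    (hKx : ∀ k < M, ∃ x : ℂ, ∃ r : ℝ, 0 < r ∧ (∀ n, ball (g^[n] x) r ⊆ K k) ∧
      ∀ B : ℝ, 0 < B → ∃ n, ‖deriv (g^[n]) x‖ * B < 1) : M ≤ S.ncard := by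
  classical
  have hfa : ∀ z, z ∈ W → DifferentiableAt ℂ f z := fun z hz =>
    hf.diff.differentiableAt (hf.opn.mem_nhds hz)
  have hne : ∀ {w : ℂ} {u : ℝ}, 0 < u → u ≤ ‖w - a‖ → w ≠ a := fun hu h =>
    sub_ne_zero.1 (norm_pos_iff.1 (hu.trans_le h))
  obtain ⟨hQ', J, hJc, hJ, hJ'⟩ := outer_inverse hδ0 hE hb
  set H : ℂ → ℂ := fun z => z + E z with hH
  have hHd : ∀ z, z ≠ a → HasDerivAt H (1 + deriv E z) z := fun z hz =>
    (hasDerivAt_id' z).fun_add (hE z hz).hasDerivAt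
  have hga : ∀ z, z ≠ a → H z ∈ W → HasDerivAt g (deriv f (H z) * (1 + deriv E z)) z :=
    fun z hz hz' => hg ▸ (hfa _ hz').hasDerivAt.comp z (hHd z hz)
  have hgH : ∀ z, g z = f (H z) := fun z => by rw [hg]
  have hit : ∀ {T : Set ℂ}, (∀ z ∈ T, g z ∈ T) → ∀ n, ∀ z ∈ T, g^[n] z ∈ T := by
    intro T hT n
    induction n with
    | zero => exact fun z hz => hz
    | succ n ih => exact fun z hz => ih _ (hT z hz)
  have hcrit : ∀ k : ℕ, ∃ c : ℂ, k < M → c ∈ S ∧ ∃ n, g^[n] c ∈ K k := by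
    intro k
    by_cases hk : k < M
    swap
    · exact ⟨0, fun h => absurd h hk⟩
    by_contra hno
    have hno' : ∀ c, (∃ n, g^[n] c ∈ K k) → c ∉ S := fun c h hc => hno ⟨c, fun _ => ⟨hc, h⟩⟩
    set Ω : Set ℂ := {z | 3 * δ < ‖z - a‖} ∩ H ⁻¹' W with hΩ
    have hΩa : ∀ z ∈ Ω, z ≠ a := fun z hz => hne (by linarith) (le_of_lt hz.1)
    set A : Set ℂ := {z | (∀ n, g^[n] z ∈ Ω) ∧ ∃ n, g^[n] z ∈ K k} with hA
    have hback : ∀ z ∈ Ω, g z ∈ A → z ∈ A := by
      rintro z hz ⟨h4, n, h5⟩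
      refine ⟨fun j => ?_, n + 1, h5⟩
      cases j with
      | zero => exact hz
      | succ j => exact h4 j
    have hfwd : ∀ z ∈ A, g z ∈ A := by
      rintro z ⟨h4, n, h5⟩
      refine ⟨fun j => h4 (j + 1), n, ?_⟩
      rw [← Function.iterate_succ_apply, Function.iterate_succ_apply']
      exact hKg k hk _ h5
    have hAs : ∀ z ∈ A, s ≤ ‖z‖ := by
      rintro z ⟨-, n, hn⟩
      by_contra hc
      exact hKD k hk _ hn (hit hDg n z (hD (by simpa using hc)))
    have hKA : K k ⊆ A := by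
      intro z hz
      refine ⟨fun n => ?_, 0, hz⟩
      have := hKW k hk _ (hit (hKg k hk) n z hz)
      exact ⟨show 3 * δ < _ by linarith [this.1], this.2⟩
    obtain ⟨x, r, hr, hx1, hx2⟩ := hKx k hk
    refine fatou_orbit (g := g) (Ω := Ω) (A := A) (x := x) (s := s)
      (ContinuousOn.isOpen_inter_preimage
        (fun z hz => (hHd z (hne (by linarith) (le_of_lt hz))).continuousAt.continuousWithinAt)
        (isOpen_lt continuous_const (by fun_prop)) hf.opn)
      (fun z hz => (hga z (hΩa z hz) hz.2).differentiableAt.differentiableWithinAt) hs0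
      (fun z hz => hz.1 0) (hKA (hx1 0 (mem_ball_self hr))) hfwd hAs
      (fun z hz => ?_) (fun c e he σ' hσ' hσA y hy hyc => ?_) hr
      (fun n => (hx1 n).trans hKA) hx2
    · have h4 : z ∈ Ω := hz.1 0
      rw [(hga z (hΩa z h4) h4.2).deriv]
      refine mul_ne_zero (hf.crit h4.2 (hno' _ (hgH z ▸ (hfwd z hz).2))) fun h => ?_
      have h5 := hQ' z (by linarith [show 3 * δ < ‖z - a‖ from h4.1])
      rw [show deriv E z = -1 by linear_combination h] at h5
      norm_num at h5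
    · have h4 : y ∈ Ω := hy.1 0
      obtain ⟨F, f1, f2, f3⟩ := hf.lift _ (convex_ball c e) isOpen_ball σ' hσ'
        (fun w hw => hno' _ (hσA w hw).2) c (mem_ball_self he) (H y) h4.2 (hgH y ▸ hyc)
      have f4 : ∀ w ∈ ball c e, 4 * δ ≤ ‖F w - a‖ := by
        intro w hw
        by_contra h
        have h5 := h3 (F w) (by rw [mem_ball, dist_eq_norm]; linarith)
        rw [(f3 w hw).2] at h5
        linarith [hAs _ (hσA w hw)]
      refine ⟨fun w => J (F w), hJc.comp f1 f4, ?_, fun w hw => ?_⟩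
      · have h5 := f4 c (mem_ball_self he)
        show J (F c) = y
        rw [f2] at h5 ⊢
        exact hJ' y (by linarith [show 3 * δ < ‖y - a‖ from h4.1]) h5
      · obtain ⟨j1, j2⟩ := hJ _ (f4 w hw)
        have j3 : H (J (F w)) = F w := j2
        have j4 : g (J (F w)) = σ' w := by rw [hgH, j3, (f3 w hw).2]
        exact ⟨hback _ ⟨j1, by rw [mem_preimage, j3]; exact (f3 w hw).1⟩
          (by rw [j4]; exact hσA w hw), j4⟩
  choose c hc using hcrit
  have hcard := Finset.card_le_card_of_injOn (s := Finset.range M) (t := hf.fin.toFinset) c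
    (fun k hk => by simpa using (hc k (by simpa using hk)).1)
    (by
      intro k hk l hl h5
      have k1 : k < M := by simpa using hk
      have l1 : l < M := by simpa using hl
      obtain ⟨-, n, hn⟩ := hc k k1
      obtain ⟨-, n', hn'⟩ := hc l l1
      have h6 := hit (hKg k k1) n' _ hn
      have h7 := hit (hKg l l1) n _ hn'
      rw [← Function.iterate_add_apply, h5, add_comm] at h6
      rw [← Function.iterate_add_apply] at h7
      exact hKK k k1 l l1 _ h6 h7)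
  rw [← Set.ncard_eq_toFinset_card S hf.fin] at hcard
  simpa using hcard

end Pool.Agent.FS.LinSmall
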