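import Pool.Agent.Lib.MP_27cd7e_an.Perturb
import Pool.Agent.FS.LinSmall.Alg

/-!
Local dynamics of the perturbed map in the linearizing coordinate.
-/

set_option autoImplicit false

namespace Pool.Agent.FS.LinSmall

open Pool.Agent.Lib.MP_27cd7e_an Metric Set Complex Filter Topology

/-- `ω` is a coordinate close to `z / ρ` on the disc of radius `100 ρ`. -/
structure Crd (ω : ℂ → ℂ) (ρ : ℝ) : Prop where
  pos : 0 < ρ
  diff : DifferentiableOn ℂ ω (ball 0 (100 * ρ))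
  zero : ω 0 = 0
  der : ∀ z ∈ ball (0 : ℂ) (100 * ρ), ‖(ρ : ℂ) * deriv ω z - 1‖ ≤ 1 / 10

theorem Crd.der' {ω : ℂ → ℂ} {ρ : ℝ} (h : Crd ω ρ) {z : ℂ} (hz : z ∈ ball (0 : ℂ) (100 * ρ)) :
    9 / 10 ≤ ρ * ‖deriv ω z‖ ∧ ρ * ‖deriv ω z‖ ≤ 11 / 10 := by
  have h1 := abs_le.1 ((abs_norm_sub_norm_le ((ρ : ℂ) * deriv ω z) 1).trans (h.der z hz))
  rw [norm_mul, Complex.norm_real, Real.norm_of_nonneg h.pos.le, norm_one] at h1
  constructor <;> linarith [h1.1, h1.2]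

theorem Crd.val {ω : ℂ → ℂ} {ρ : ℝ} (h : Crd ω ρ) {z : ℂ} (hz : z ∈ ball (0 : ℂ) (100 * ρ)) :
    9 / 10 * ‖z‖ ≤ ρ * ‖ω z‖ ∧ ρ * ‖ω z‖ ≤ 11 / 10 * ‖z‖ := by
  have h0 := mvt (F := fun z => (ρ : ℂ) * ω z - z) (C := 1 / 10)
    ((h.diff.const_mul _).sub differentiableOn_id) (fun w hw => by
      rw [(((diffAt h.diff hw).hasDerivAt.const_mul _).fun_sub (hasDerivAt_id' w)).deriv]
      exact h.der w hw) hz (mem_ball_self (by linarith [h.pos]))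
  simp only [h.zero, mul_zero, sub_zero] at h0
  have h1 := abs_le.1 ((abs_norm_sub_norm_le ((ρ : ℂ) * ω z) z).trans h0)
  rw [norm_mul, Complex.norm_real, Real.norm_of_nonneg h.pos.le] at h1
  constructor <;> linarith [h1.1, h1.2]

theorem Crd.le {ω : ℂ → ℂ} {ρ : ℝ} (h : Crd ω ρ) {z : ℂ} (hz : z ∈ ball (0 : ℂ) (100 * ρ)) :
    ‖ω z‖ ≤ 110 := by
  have h1 := (h.val hz).2
  rw [mem_ball_zero_iff] at hz
  exact le_of_mul_le_mul_left (by linarith) h.pos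

theorem Crd.small {ω : ℂ → ℂ} {ρ : ℝ} (h : Crd ω ρ) {z : ℂ} (hz : z ∈ ball (0 : ℂ) (12 * ρ))
    (h2 : ‖ω z‖ ≤ 2) : ‖z‖ ≤ 3 * ρ := by
  have h1 := (h.val (ball_subset_ball (by linarith [h.pos]) hz)).1
  nlinarith [h.pos]

theorem Crd.onto {ω : ℂ → ℂ} {ρ : ℝ} (h : Crd ω ρ) {u : ℂ} (hu : ‖u‖ ≤ 2) :
    ∃ x ∈ ball (0 : ℂ) (12 * ρ), ω x = u := by
  have hρ := h.pos
  obtain ⟨-, ψ, -, h1⟩ := exists_inverse (Φ := fun z => (ρ : ℂ) * ω z) (R := 100 * ρ) (r := 4 * ρ)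
    (c := 1 / 10) (ρ := 3 * ρ) (h.diff.const_mul _) (by simp [h.zero]) (by norm_num) (by norm_num)
    (fun w hw => by
      rw [((diffAt h.diff hw).hasDerivAt.const_mul _).deriv]
      exact h.der w hw) (by linarith) (by linarith) (by linarith) (by linarith)
  obtain ⟨h2, h3⟩ := h1 (u / 3) (by
    rw [mem_ball_zero_iff, norm_div, Complex.norm_ofNat]; linarith)
  refine ⟨ψ (u / 3), by rw [mem_ball_zero_iff]; linarith, ?_⟩
  have h4 : (ρ : ℂ) ≠ 0 := by exact_mod_cast hρ.ne'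
  apply mul_left_cancel₀ h4
  rw [h3]
  push_cast
  ring

theorem local_dyn {ω g e : ℂ → ℂ} {ρ ε η η₁ : ℝ} {lam ζ : ℂ} {q M : ℕ} (h : Crd ω ρ)
    (hq : 1 ≤ q) (hM : 1 ≤ M) (hlam : ‖lam‖ = 1) (hζ : ‖ζ‖ = 1) (hζM : ζ ^ M = 1)
    (hη0 : 0 < η) (hη : η ≤ 1 / 4) (hη₁ : η₁ = η / 32)
    (hP : ∀ u : ℂ, ‖u - 1‖ ≤ η → ‖u * pp (u ^ M) - M * (u - 1)‖ ≤ ‖u - 1‖ / 4 ∧
      ‖pp (u ^ M)‖ ≤ 1 / 10 ∧ ‖u ^ M * (-3 + 4 * u ^ M) - 1‖ ≤ 1 / 10)
    (hε : 0 < ε) (hτ : q * ε ≤ η₁) (hτM : q * ε * M ≤ 1) (hl : ‖lam ^ q - 1‖ ≤ q * ε * η₁)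
    (hgd : DifferentiableOn ℂ g (ball 0 (12 * ρ))) (hed : DifferentiableOn ℂ e (ball 0 (12 * ρ)))
    (heb : ∀ z ∈ ball (0 : ℂ) (12 * ρ), ‖e z‖ ≤ η₁)
    (hgb : ∀ z : ℂ, ‖z‖ ≤ 3 * ρ → g z ∈ ball (0 : ℂ) (12 * ρ))
    (hc : ∀ z ∈ ball (0 : ℂ) (12 * ρ),
      ω (g z) = lam * (ω z * (1 - ε * pp (ω z ^ (q * M))) + ε * e z)) :
    (∀ z ∈ {z ∈ ball (0 : ℂ) (12 * ρ) | ‖ω z ^ q * ζ - 1‖ ≤ η},
      g z ∈ {z ∈ ball (0 : ℂ) (12 * ρ) | ‖ω z ^ q * ζ - 1‖ ≤ η}) ∧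
    ∃ x : ℂ, ∃ r : ℝ, 0 < r ∧
      (∀ n, ball (g^[n] x) r ⊆ {z ∈ ball (0 : ℂ) (12 * ρ) | ‖ω z ^ q * ζ - 1‖ ≤ η}) ∧
      ∀ B : ℝ, 0 < B → ∃ n, ‖deriv (g^[n]) x‖ * B < 1 := by
  have hρ := h.pos
  have hq' : (1 : ℝ) ≤ q := by exact_mod_cast hq
  have hε1 : ε ≤ 1 := by nlinarith
  have hsub : ball (0 : ℂ) (12 * ρ) ⊆ ball 0 (100 * ρ) := ball_subset_ball (by linarith)
  have h3 : ∀ z ∈ ball (0 : ℂ) (12 * ρ), ‖ω z ^ q * ζ - 1‖ ≤ η → ‖z‖ ≤ 3 * ρ := fun z hz hu =>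
    h.small hz (size hq hζ (hu.trans hη)).2
  have hinv : ∀ t, t ≤ η → η / 2 ≤ t → ∀ z ∈ {z ∈ ball (0 : ℂ) (12 * ρ) | ‖ω z ^ q * ζ - 1‖ ≤ t},
      g z ∈ {z ∈ ball (0 : ℂ) (12 * ρ) | ‖ω z ^ q * ζ - 1‖ ≤ t} := by
    rintro t t1 t2 z ⟨hz, hu⟩
    refine ⟨hgb z (h3 z hz (hu.trans t1)), ?_⟩
    rw [hc z hz]
    exact outer_step hq hM hζ hζM hε (t1.trans hη) (by linarith) hτ hτM (heb z hz) hl hu
      (hP _ (hu.trans t1)).1 (hP _ (hu.trans t1)).2.1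
  refine ⟨hinv η le_rfl (by linarith), ?_⟩
  obtain ⟨u, hu⟩ := IsAlgClosed.exists_pow_nat_eq ζ⁻¹ (n := q) (by omega)
  have hζ0 : ζ ≠ 0 := norm_pos_iff.1 (by linarith)
  have hu1 : ‖u ^ q * ζ - 1‖ = 0 := by rw [hu, inv_mul_cancel₀ hζ0, sub_self, norm_zero]
  obtain ⟨x, hx, hxu⟩ := h.onto (size hq hζ (w := u) (by rw [hu1]; norm_num)).2
  have horb : ∀ n, g^[n] x ∈ {z ∈ ball (0 : ℂ) (12 * ρ) | ‖ω z ^ q * ζ - 1‖ ≤ η / 2} := by
    intro n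
    induction n with
    | zero => exact ⟨hx, by rw [Function.iterate_zero_apply, hxu, hu1]; linarith⟩
    | succ n ih =>
      rw [Function.iterate_succ_apply']
      exact hinv _ (by linarith) le_rfl _ ih
  set L : ℝ := 2 * 110 ^ q / (50 * ρ) with hL
  have hL0 : 0 < L := by positivity
  have hlip : ∀ y ∈ ball (0 : ℂ) (50 * ρ), ∀ z ∈ ball (0 : ℂ) (50 * ρ),
      ‖ω y ^ q - ω z ^ q‖ ≤ L * ‖y - z‖ := by
    intro y hy z hz
    refine mvt (F := fun z => ω z ^ q) ((h.diff.mono (ball_subset_ball (by linarith))).pow q)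
      (fun w hw => deriv_bound (R := 100 * ρ) (c := 0) (h.diff.pow q) (fun w hw => ?_)
        (by linarith) ?_) hy hz
    · rw [norm_pow]
      exact pow_le_pow_left₀ (norm_nonneg _) (h.le hw) q
    · rw [mem_ball_zero_iff] at hw
      rw [sub_zero]
      linarith
  have hstep : ∀ z ∈ ball (0 : ℂ) (12 * ρ), ‖ω z ^ q * ζ - 1‖ ≤ η →
      ‖deriv ω (g z)‖ * ‖deriv g z‖ ≤ (1 - ε / 2) * ‖deriv ω z‖ := by
    intro z hz hu
    have z3 := h3 z hz hu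
    have d1 := (diffAt h.diff (hsub hz)).hasDerivAt
    have d2 := (diffAt h.diff (hsub (hgb z z3))).hasDerivAt.comp z (diffAt hgd hz).hasDerivAt
    have d3 := (diffAt hed hz).hasDerivAt
    obtain ⟨N, hN⟩ : ∃ N, q * M = N + 1 := ⟨q * M - 1, by
      have := Nat.mul_pos (show 0 < q by omega) (show 0 < M by omega); omega⟩
    have d4 : HasDerivAt (fun z => lam * (ω z * (1 - ε * pp (ω z ^ (N + 1))) + ε * e z))
        (lam * (deriv ω z * (1 - ε * pp (ω z ^ (N + 1)) -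
          ε * ((N + 1 : ℕ) : ℂ) * (ω z ^ (N + 1) * (-3 + 4 * ω z ^ (N + 1)))) + ε * deriv e z)) z := by
      have d5 := d1.fun_pow (N + 1)
      have d6 := ((d1.fun_mul (((((d5.const_mul 3).const_sub 1).fun_add
        ((d5.fun_pow 2).const_mul 2)).const_mul (ε : ℂ)).const_sub 1)).fun_add
          (d3.const_mul (ε : ℂ))).const_mul lam
      refine d6.congr_deriv ?_
      simp only [pp, Nat.add_sub_cancel]
      push_cast
      ring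
    have d7 := d2.unique (d4.congr_of_eventuallyEq (by
      filter_upwards [isOpen_ball.mem_nhds hz] with w hw
      rw [← hN]
      exact hc w hw))
    have e0 : ω z ^ (N + 1) = (ω z ^ q * ζ) ^ M := by
      rw [mul_pow, hζM, mul_one, ← pow_mul, hN]
    have b1 := deriv_step (v := ω z ^ (N + 1)) (N := N + 1) (by omega) hε (by
      rw [← hN]; push_cast; linarith) (e0 ▸ (hP _ hu).2.1) (e0 ▸ (hP _ hu).2.2)
    have b2 := deriv_bound (s := 8 * ρ) (z := z) hed heb (by linarith) (by rw [sub_zero]; linarith)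
    rw [le_div_iff₀ (by linarith)] at b2
    have b3 := (h.der' (hsub hz)).1
    have b4 : ‖deriv e z‖ ≤ 3 / 10 * ‖deriv ω z‖ :=
      le_of_mul_le_mul_left (by nlinarith) hρ
    rw [← norm_mul, d7, norm_mul, hlam, one_mul]
    refine (norm_add_le _ _).trans ?_
    rw [norm_mul, norm_mul, Complex.norm_real, Real.norm_of_nonneg hε.le]
    have b5 := mul_le_mul_of_nonneg_left b1 (norm_nonneg (deriv ω z))
    have b6 := mul_le_mul_of_nonneg_left b4 hε.le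
    linarith
  have hder : ∀ n, DifferentiableAt ℂ (g^[n]) x ∧
      ‖deriv ω (g^[n] x)‖ * ‖deriv (g^[n]) x‖ ≤ (1 - ε / 2) ^ n * ‖deriv ω x‖ := by
    intro n
    induction n with
    | zero => exact ⟨differentiableAt_id, by simp⟩
    | succ n ih =>
      obtain ⟨o1, o2⟩ := horb n
      have d1 := (diffAt hgd o1).hasDerivAt.comp x ih.1.hasDerivAt
      have d2 := hstep _ o1 (o2.trans (by linarith))
      rw [Function.iterate_succ', d1.deriv, norm_mul, Function.comp_apply, ← mul_assoc, pow_succ]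
      refine ⟨d1.differentiableAt, ?_⟩
      have d3 := mul_le_mul_of_nonneg_right d2 (norm_nonneg (deriv (g^[n]) x))
      have d4 := mul_le_mul_of_nonneg_left ih.2 (by linarith : 0 ≤ 1 - ε / 2)
      nlinarith
  refine ⟨x, min ρ (η / 2 / L), by positivity, fun n y hy => ?_, fun B hB => ?_⟩
  · obtain ⟨o1, o2⟩ := horb n
    have o3 := h3 _ o1 (o2.trans (by linarith))
    generalize g^[n] x = z at *
    rw [mem_ball, dist_eq_norm, lt_min_iff, lt_div_iff₀ hL0] at hy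
    have o4 := norm_le_norm_sub_add y z
    have o5 := hlip y (by rw [mem_ball_zero_iff]; linarith [hy.1]) z
      (by rw [mem_ball_zero_iff]; linarith)
    refine ⟨by rw [mem_ball_zero_iff]; linarith [hy.1], ?_⟩
    rw [show ω y ^ q * ζ - 1 = (ω y ^ q - ω z ^ q) * ζ + (ω z ^ q * ζ - 1) by ring]
    refine (norm_add_le _ _).trans ?_
    rw [norm_mul, hζ, mul_one]
    linarith [hy.2]
  · obtain ⟨n, hn⟩ := exists_pow_lt_of_lt_one (x := 1 / (2 * B)) (y := 1 - ε / 2) (by positivity)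
      (by linarith)
    refine ⟨n, ?_⟩
    have o1 := (h.der' (hsub (horb n).1)).1
    have o2 := (h.der' (hsub hx)).2
    have o3 := mul_le_mul_of_nonneg_left (hder n).2 hρ.le
    have o4 : 0 ≤ (1 - ε / 2) ^ n := pow_nonneg (by linarith) n
    rw [lt_div_iff₀ (by positivity)] at hn
    have o5 := mul_le_mul_of_nonneg_right o1 (norm_nonneg (deriv (g^[n]) x))
    have o6 := mul_le_mul_of_nonneg_left o2 o4
    have o7 : ‖deriv (g^[n]) x‖ ≤ 2 * (1 - ε / 2) ^ n := by nlinarith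
    nlinarith

end Pool.Agent.FS.LinSmall
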