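import Pool.Agent.FS.LinSmall.Loc
import Pool.Agent.FS.LinSmall.Count

/-!
The perturbed map and the contradiction for one value of `q`.
-/

set_option autoImplicit false

namespace Pool.Agent.FS.LinSmall

open Pool.Agent.Lib.MP_27cd7e_an Metric Set Complex Filter Topology

theorem pp_le {v : ℂ} {X : ℝ} (hX : 1 ≤ X) (hv : ‖v‖ ≤ X) : ‖pp v‖ ≤ 6 * X ^ 2 := by
  have h1 : ‖pp v‖ ≤ ‖(1 : ℂ)‖ + ‖3 * v‖ + ‖2 * v ^ 2‖ :=
    (norm_add_le _ _).trans (add_le_add (norm_sub_le _ _) le_rfl)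
  rw [norm_mul, norm_mul, norm_pow, norm_one] at h1
  simp only [Complex.norm_ofNat] at h1
  nlinarith [norm_nonneg v]

theorem one_q {W S : Set ℂ} {f ω : ℂ → ℂ} {lam a : ℂ} {ρ δ ε η η₁ B Λ : ℝ} {q M n : ℕ}
    (hf : FT W f S) (h : Crd ω ρ) (hρ1 : ρ ≤ 1) (hlam : ‖lam‖ = 1)
    (hloc : ∀ z ∈ ball (0 : ℂ) (100 * ρ), z ∈ W ∧ ‖f z‖ ≤ 2 * ‖z‖ ∧ ω (f z) = lam * ω z)
    (hδ : 0 < δ) (h3 : ∀ z ∈ ball a (4 * δ), 100 * ρ ≤ ‖z‖ ∧ ‖f z‖ < ρ / 10)
    (hq : 1 ≤ q) (hM : 1 ≤ M) (hη0 : 0 < η) (hη : η ≤ 1 / 4) (hη₁ : η₁ = η / 32)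
    (hP : ∀ u : ℂ, ‖u - 1‖ ≤ η → ‖u * pp (u ^ M) - M * (u - 1)‖ ≤ ‖u - 1‖ / 4 ∧
      ‖pp (u ^ M)‖ ≤ 1 / 10 ∧ ‖u ^ M * (-3 + 4 * u ^ M) - 1‖ ≤ 1 / 10)
    (hsep : ∀ ξ : ℂ, ‖ξ - 1‖ ≤ 4 * η → ξ ^ M = 1 → ξ = 1)
    (hΛ : 1 ≤ Λ) (hΛ' : ‖a‖ * (1 + ‖a‖ / δ) ≤ Λ * (28 * ρ))
    (hB : 1000 * ((110 : ℝ) ^ (q * M)) ^ 2 ≤ B) (hn : 2 * B / 2 ^ n ≤ ρ * η₁ / 4)
    (hε : 0 < ε) (hε1 : ε * (B * (2 * Λ) ^ n) ≤ δ / 4) (hε2 : ε * (B + 1) ^ 2 ≤ ρ ^ 2 * η₁)
    (hτ : q * ε ≤ η₁) (hτM : q * ε * M ≤ 1) (hl : ‖lam ^ q - 1‖ ≤ q * ε * η₁) :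
    M ≤ S.ncard := by
  have hρ := h.pos
  have hq' : (1 : ℝ) ≤ q := by exact_mod_cast hq
  have hη2 : 0 < η₁ := by rw [hη₁]; positivity
  have hη3 : η₁ ≤ 1 / 128 := by linarith
  have hε3 : ε ≤ 1 := by nlinarith
  have hX : (1 : ℝ) ≤ 110 ^ (q * M) := one_le_pow₀ (by norm_num)
  have hB0 : 0 ≤ B := le_trans (by positivity) hB
  have hsub : ball (0 : ℂ) (12 * ρ) ⊆ ball 0 (100 * ρ) := ball_subset_ball (by linarith)
  have hω' : ∀ z ∈ ball (0 : ℂ) (100 * ρ), deriv ω z ≠ 0 := fun z hz h0 => by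
    have := (h.der' hz).1
    rw [h0, norm_zero] at this
    linarith
  have hppd : DifferentiableOn ℂ (fun z => ω z * pp (ω z ^ (q * M))) (ball 0 (100 * ρ)) := by
    have := h.diff
    unfold pp
    fun_prop
  obtain ⟨Q, q1, q2, q3⟩ := approx (G := fun z => -(ω z * pp (ω z ^ (q * M))) / deriv ω z)
    (a := a) (B := B) hρ hδ (hppd.neg.div (h.diff.deriv isOpen_ball) hω') (fun z hz => by
      have b1 := pp_le hX (v := ω z ^ (q * M)) (by
        rw [norm_pow]; exact pow_le_pow_left₀ (norm_nonneg _) (h.le hz) _)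
      have b2 := (h.der' hz).1
      have b3 : 9 / 10 ≤ ‖deriv ω z‖ := by nlinarith [norm_nonneg (deriv ω z)]
      have b4 := mul_le_mul (h.le hz) b1 (norm_nonneg _) (by norm_num)
      rw [norm_div, norm_neg, norm_mul, div_le_iff₀ (by linarith)]
      have b5 := mul_le_mul_of_nonneg_left b3 hB0
      nlinarith [sq_nonneg ((110 : ℝ) ^ (q * M))])
    (h3 a (mem_ball_self (by linarith))).1 hΛ hΛ' n
  have hfar : ∀ z ∈ ball (0 : ℂ) (100 * ρ), 4 * δ ≤ ‖z - a‖ := by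
    intro z hz
    by_contra hh
    linarith [(h3 z (by rw [mem_ball, dist_eq_norm]; linarith)).1, mem_ball_zero_iff.1 hz]
  have hQd : ∀ z ∈ ball (0 : ℂ) (12 * ρ), DifferentiableAt ℂ Q z := fun z hz =>
    q1 z (sub_ne_zero.1 (norm_pos_iff.1 (by linarith [hfar z (hsub hz)])))
  have hεn : ∀ w : ℂ, ‖(ε : ℂ) * w‖ = ε * ‖w‖ := fun w => by
    rw [norm_mul, Complex.norm_real, Real.norm_of_nonneg hε.le]
  have hQb : ∀ z ∈ ball (0 : ℂ) (12 * ρ), ‖Q z‖ ≤ B + 1 := by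
    intro z hz
    have b0 := q2 z hz
    have b1 := pp_le hX (v := ω z ^ (q * M)) (by
      rw [norm_pow]; exact pow_le_pow_left₀ (norm_nonneg _) (h.le (hsub hz)) _)
    have b2 := (h.der' (hsub hz)).1
    have b3 : 9 / 10 ≤ ‖deriv ω z‖ := by nlinarith [norm_nonneg (deriv ω z)]
    have b4 := mul_le_mul (h.le (hsub hz)) b1 (norm_nonneg _) (by norm_num)
    have b6 : ‖-(ω z * pp (ω z ^ (q * M))) / deriv ω z‖ ≤ B := by
      rw [norm_div, norm_neg, norm_mul, div_le_iff₀ (by linarith)]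
      have b5 := mul_le_mul_of_nonneg_left b3 hB0
      nlinarith [sq_nonneg ((110 : ℝ) ^ (q * M))]
    have b7 := norm_le_norm_sub_add (Q z) (-(ω z * pp (ω z ^ (q * M))) / deriv ω z)
    rw [norm_sub_rev] at b7
    nlinarith
  have hEb : ∀ z ∈ ball (0 : ℂ) (12 * ρ), ‖(ε : ℂ) * Q z‖ ≤ ρ := by
    intro z hz
    rw [hεn]
    have b1 := mul_le_mul_of_nonneg_left (hQb z hz) hε.le
    have b2 : ε * (B + 1) ≤ ε * (B + 1) ^ 2 := mul_le_mul_of_nonneg_left (by nlinarith) hε.le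
    have b3 : ρ * η₁ ≤ 1 := by nlinarith
    nlinarith
  have hH : ∀ z ∈ ball (0 : ℂ) (12 * ρ), z + ε * Q z ∈ ball (0 : ℂ) (100 * ρ) := by
    intro z hz
    have := hEb z hz
    rw [mem_ball_zero_iff] at hz ⊢
    linarith [norm_add_le z (ε * Q z)]
  have hHd : DifferentiableOn ℂ (fun z => z + ε * Q z) (ball 0 (12 * ρ)) := fun z hz =>
    (differentiableAt_id.add ((hQd z hz).const_mul _)).differentiableWithinAt
  have hε' : (ε : ℂ) ≠ 0 := by exact_mod_cast hε.ne'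
  set g : ℂ → ℂ := fun z => f (z + ε * Q z) with hg
  set e : ℂ → ℂ := fun z => (ω (z + ε * Q z) - ω z) / ε + ω z * pp (ω z ^ (q * M)) with he
  have hgd : DifferentiableOn ℂ g (ball 0 (12 * ρ)) :=
    hf.diff.comp hHd fun z hz => (hloc _ (hH z hz)).1
  have hed : DifferentiableOn ℂ e (ball 0 (12 * ρ)) :=
    (((h.diff.comp hHd hH).sub (h.diff.mono hsub)).div_const _).add (hppd.mono hsub)
  have hc : ∀ z ∈ ball (0 : ℂ) (12 * ρ),
      ω (g z) = lam * (ω z * (1 - ε * pp (ω z ^ (q * M))) + ε * e z) := by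
    intro z hz
    simp only [hg, he]
    rw [(hloc _ (hH z hz)).2.2]
    field_simp
    ring
  have hgb : ∀ z : ℂ, ‖z‖ ≤ 3 * ρ → g z ∈ ball (0 : ℂ) (12 * ρ) := by
    intro z hz
    have hz' : z ∈ ball (0 : ℂ) (12 * ρ) := by rw [mem_ball_zero_iff]; linarith
    have b1 := (hloc _ (hH z hz')).2.1
    rw [mem_ball_zero_iff]
    linarith [norm_add_le z (ε * Q z), hEb z hz']
  have heb : ∀ z ∈ ball (0 : ℂ) (12 * ρ), ‖e z‖ ≤ η₁ := by
    intro z hz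
    have hz0 := mem_ball_zero_iff.1 hz
    have m1 : ∀ y ∈ ball (0 : ℂ) (50 * ρ), z + y ∈ ball (0 : ℂ) (100 * ρ) := by
      intro y hy
      rw [mem_ball_zero_iff] at hy ⊢
      linarith [norm_add_le z y]
    have b0 := (h.der' (hsub hz)).2
    have b1 := schwarz2 (F := fun y => ω (z + y) - ω z - deriv ω z * y) (R := 50 * ρ) (M := 275)
      (z := ε * Q z)
      (((h.diff.comp (f := fun y => z + y) (by fun_prop) m1).sub_const _).sub (by fun_prop))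
      (by simp) (by
        have d1 : HasDerivAt ω (deriv ω z) (z + 0) := by
          simpa using (diffAt h.diff (hsub hz)).hasDerivAt
        rw [(((d1.comp_const_add z 0).sub_const _).fun_sub
          ((hasDerivAt_id' 0).const_mul _)).deriv]
        simp)
      (fun y hy => by
        have c1 := h.le (m1 y hy)
        have c2 := h.le (hsub hz)
        have c3 := norm_sub_le (ω (z + y) - ω z) (deriv ω z * y)
        have c4 := norm_sub_le (ω (z + y)) (ω z)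
        rw [norm_mul] at c3
        rw [mem_ball_zero_iff] at hy
        nlinarith [norm_nonneg (deriv ω z)])
      (by rw [mem_ball_zero_iff]; linarith [hEb z hz])
    have e1 : e z = (ω (z + ε * Q z) - ω z - deriv ω z * (ε * Q z)) / ε -
        deriv ω z * (-(ω z * pp (ω z ^ (q * M))) / deriv ω z - Q z) := by
      have := hω' z (hsub hz)
      simp only [he]
      field_simp
      ring
    have b2 := (q2 z hz).trans hn
    have b3 := mul_le_mul_of_nonneg_left b2 (norm_nonneg (deriv ω z))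
    have b4 : ‖(ω (z + ε * Q z) - ω z - deriv ω z * (ε * Q z)) / ε‖ ≤ η₁ / 2 := by
      rw [norm_div, Complex.norm_real, Real.norm_of_nonneg hε.le, div_le_iff₀ hε]
      refine b1.trans ?_
      rw [hεn, show 275 / (50 * ρ) / (50 * ρ) * (ε * ‖Q z‖) * (ε * ‖Q z‖) =
        11 / 100 * (ε * ‖Q z‖ ^ 2 / ρ ^ 2) * ε by field_simp; ring]
      have c1 : ε * ‖Q z‖ ^ 2 / ρ ^ 2 ≤ η₁ := by
        rw [div_le_iff₀ (by positivity)]
        have := mul_le_mul_of_nonneg_left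
          (pow_le_pow_left₀ (norm_nonneg _) (hQb z hz) 2) hε.le
        linarith
      exact mul_le_mul_of_nonneg_right (by linarith) hε.le
    rw [e1]
    refine (norm_sub_le _ _).trans ?_
    rw [norm_mul]
    nlinarith
  have hμ := Complex.isPrimitiveRoot_exp M (by omega)
  generalize exp (2 * Real.pi * I / M) = μ at hμ
  have hζM : ∀ k : ℕ, (μ ^ k) ^ M = 1 := fun k => by
    rw [← pow_mul, mul_comm, pow_mul, hμ.pow_eq_one, one_pow]
  have hζ : ∀ k : ℕ, ‖μ ^ k‖ = 1 := fun k => Complex.norm_eq_one_of_pow_eq_one (hζM k) (by omega)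
  have hdyn := fun k : ℕ => local_dyn h hq hM hlam (hζ k) (hζM k) hη0 hη hη₁ hP hε hτ hτM hl hgd
    hed heb hgb hc
  refine count (D := {z ∈ ball (0 : ℂ) (12 * ρ) | ‖ω z‖ ≤ 1 / 8}) (E := fun z => ε * Q z) (g := g)
    (K := fun k => {z ∈ ball (0 : ℂ) (12 * ρ) | ‖ω z ^ q * μ ^ k - 1‖ ≤ η}) (s := ρ / 10) hf hδ
    (by linarith) (fun z hz => (h3 z hz).2) (fun z hz => (q1 z hz).const_mul _) (fun z hz => ?_) rfl
    (fun z hz => ?_) (fun z hz => ?_) (fun k _ => (hdyn k).1) (fun k _ z hz hz' => ?_)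
    (fun k hk l hl z hz hz' => ?_) (fun k _ z hz => ⟨hfar z (hsub hz.1), (hloc _ (hH z hz.1)).1⟩)
    (fun k _ => (hdyn k).2)
  · rw [hεn]
    exact (mul_le_mul_of_nonneg_left (q3 z hz) hε.le).trans hε1
  · have hz' : z ∈ ball (0 : ℂ) (12 * ρ) := ball_subset_ball (by linarith) hz
    refine ⟨hz', le_of_mul_le_mul_left ?_ hρ⟩
    linarith [(h.val (hsub hz')).2, mem_ball_zero_iff.1 hz]
  · refine ⟨hgb z (h.small hz.1 (by linarith [hz.2])), ?_⟩
    rw [hc z hz.1, norm_mul, hlam, one_mul]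
    exact inner_step (Nat.mul_pos (show 0 < q by omega) (show 0 < M by omega)) hε hε3 hz.2
      (by linarith [heb z hz.1])
  · linarith [(size hq (hζ k) (hz.2.trans hη)).1, hz'.2]
  · have hk0 : μ ^ l ≠ 0 := norm_pos_iff.1 (by rw [hζ]; norm_num)
    refine hμ.pow_inj hk hl ((div_eq_one_iff_eq hk0).1 (hsep _ ?_ (by
      rw [div_pow, hζM, hζM, div_one])))
    have c1 := hz.2
    have c2 := hz'.2
    have c3 := abs_le.1 ((abs_norm_sub_norm_le (ω z ^ q * μ ^ k) 1).trans c1)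
    rw [norm_mul, hζ, mul_one, norm_one] at c3
    have c4 := norm_sub_le (ω z ^ q * μ ^ k - 1) (ω z ^ q * μ ^ l - 1)
    rw [show ω z ^ q * μ ^ k - 1 - (ω z ^ q * μ ^ l - 1) = ω z ^ q * (μ ^ k - μ ^ l) by ring,
      norm_mul] at c4
    rw [div_sub_one hk0, norm_div, hζ, div_one]
    nlinarith [norm_nonneg (μ ^ k - μ ^ l), c3.1]

end Pool.Agent.FS.LinSmall
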